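import Pool.Agent.Lib.MP_f65947_an.FatC

set_option autoImplicit false

open Metric MeasureTheory

namespace Pool.Agent.Results.MP_f65947_an.AlmostFullMeasure

section
variable {X : Type} [NormedAddCommGroup X] [NormedSpace ℝ X] [NormedSpace ℂ X]

/-- The real differential of `ρ` at `x`. -/
noncomputable def dif (ρ : X → ℝ) (x : X) : X →L[ℝ] ℝ := fderiv ℝ ρ x

/-- The real Hessian of `ρ` at `x` evaluated on `(w, w)`. -/
noncomputable def hess (ρ : X → ℝ) (x w : X) : ℝ := fderiv ℝ (dif ρ) x w w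

/-- The Levi form of `ρ` at `x` in direction `w`, up to a positive constant factor. -/
noncomputable def levi (ρ : X → ℝ) (x w : X) : ℝ := hess ρ x w + hess ρ x (Complex.I • w)

/-- At `x` the differential is nonzero, the Levi form is nonnegative, and it vanishes on a complex
subspace of dimension at least `q` of the tangent space of the level set. -/
def WeakPoint (ρ : X → ℝ) (q : ℕ) (x : X) : Prop :=
  dif ρ x ≠ 0 ∧ (∀ w, 0 ≤ levi ρ x w) ∧
    ∃ N : Submodule ℂ X, q ≤ Module.finrank ℂ N ∧ ∀ w ∈ N, dif ρ x w = 0 ∧ levi ρ x w = 0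

/-- Every holomorphic disc in `S` with centre `x` is constant. -/
def NoDiscAt (S : Set X) (x : X) : Prop :=
  ∀ f : ℂ → X, DifferentiableOn ℂ f (ball 0 1) → f 0 = x →
    (∀ t ∈ ball (0 : ℂ) 1, f t ∈ S) → ∀ t ∈ ball (0 : ℂ) 1, f t = x

end

/-- The defining function `u z - Re w` of the rigid hypersurface `Re w = u z`. -/
def rho {n : ℕ} (u : (Fin n → ℂ) → ℝ) (y : (Fin n → ℂ) × ℂ) : ℝ := u y.1 - y.2.re

/-- A smooth pseudoconvex hypersurface over the unit polydisc whose Levi form has rank at most one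
everywhere, such that the points lying on a nonconstant holomorphic disc of the hypersurface
project to a set of arbitrarily small measure. -/
theorem result (n : ℕ) (hn : 1 ≤ n) (ε : ℝ) (hε : 0 < ε) :
    ∃ (u : (Fin n → ℂ) → ℝ) (E : Set (Fin n → ℂ)),
      ContDiff ℝ ((⊤ : ℕ∞) : WithTop ℕ∞) u ∧ IsClosed E ∧
      volume (ball (0 : Fin n → ℂ) 1 \ E) < ENNReal.ofReal ε ∧
      (∀ x : (Fin n → ℂ) × ℂ, x.1 ∈ ball (0 : Fin n → ℂ) 1 → WeakPoint (rho u) (n - 1) x) ∧
      ∀ x : (Fin n → ℂ) × ℂ, x.1 ∈ E →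
        NoDiscAt {y : (Fin n → ℂ) × ℂ | y.1 ∈ ball (0 : Fin n → ℂ) 1 ∧ rho u y = 0} x := by
  obtain ⟨u, E, h1, h2, h3, h4, h5, h6⟩ :=
    Pool.Agent.Lib.MP_f65947_an.Fat.fat_example hn (ENNReal.ofReal_pos.2 hε)
  refine ⟨u, E, h1, h2, h3, fun x hx => ⟨h4 x, (h5 x hx).1, (h5 x hx).2⟩, ?_⟩
  rintro x hx f hf rfl hin
  exact h6 f hf hx hin

end Pool.Agent.Results.MP_f65947_an.AlmostFullMeasure
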